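import Pool.Agent.H68.GHY.Targets
import Pool.Agent.H84.GA.FTY

/-!
Row FTS: sharp bounds for the Fourier transform of the bump functions.
-/

set_option autoImplicit false

namespace Pool.Agent.H94.GHY

open MeasureTheory Pool.Agent.H34.GM Pool.Agent.H34.GU Pool.Agent.H34.GA Pool.Agent.H68.GHY
open Pool.Agent.H34.GZ hiding eu eu2 cf
open Pool.Agent.H84.GA.FY Pool.Agent.H84.GA.FD Pool.Agent.H84.GA.BD Pool.Agent.H84.GA.DE

theorem pf_FTS : T_FTY → T_FTS := by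
  intro _ m χ K _ hχ
  have hs := b1_smooth (m := m) hχ
  have hc := b1_comp (m := m) hχ
  refine ⟨dc (b1 m χ) K, dc_pos _ _, ?_⟩
  intro δ hδ _ w
  show ‖(starRingEnd ℂ) (ft (bi m χ δ) w)‖ ≤ _
  rw [RCLike.norm_conj]
  have h1 : ft (bi m χ δ) w = ∫ z : V m, (b1 m χ) (δ⁻¹ • (z - oneV m)) * EE w z := by
    unfold ft
    apply integral_congr_ae
    filter_upwards with z
    rw [bi_eq χ hδ z]
    rfl
  have h2 : sz (δ • w) = δ * sz w := by
    have : sz (δ • w) = ‖δ • ((fun i j => w i j) : V m)‖ := rfl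
    rw [this, norm_smul, Real.norm_of_nonneg hδ.le]
    rfl
  have h3 := dec hs hc K (δ • w)
  rw [h2] at h3
  rw [h1, sc _ hδ w]
  have h4 : δ ^ (m * m) = δ ^ (m ^ 2) := by rw [sq]
  rw [h4]
  calc δ ^ (m ^ 2) * ‖∫ y : V m, (b1 m χ) y * EE (δ • w) y‖
      ≤ δ ^ (m ^ 2) * (dc (b1 m χ) K * (1 + δ * sz w) ^ (-(K : ℝ))) :=
        mul_le_mul_of_nonneg_left h3 (by positivity)
    _ = dc (b1 m χ) K * δ ^ (m ^ 2) * (1 + δ * sz w) ^ (-(K : ℝ)) := by ring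

end Pool.Agent.H94.GHY
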